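import Mathlib

namespace Pool.Agent.Lib.MP_b0bae3_lc

/-- The bipartite graph `(U, V, E)` is a Ferrers graph: it has no induced `2K₂`. -/
def Ferrers {U V : Type} (E : U → V → Prop) : Prop :=
  ¬ ∃ u u' v v', u ≠ u' ∧ v ≠ v' ∧ E u v ∧ E u' v' ∧ ¬ E u v' ∧ ¬ E u' v

/-- The Ferrers partition number: the least `k` such that the edge set is a disjoint union of
`k` Ferrers graphs. -/
noncomputable def fp {U V : Type} (E : U → V → Prop) : ℕ :=
  sInf {k | ∃ P : Fin k → U → V → Prop, (∀ i, Ferrers (P i)) ∧ (∀ u v, E u v ↔ ∃ i, P i u v) ∧
    ∀ i j u v, P i u v → P j u v → i = j}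

/-- The bipartite graph with biadjacency matrix `M`: rows and columns (as many as the first row
has entries) are the two parts, adjacent when the entry is `true`. -/
def edge (M : List (List Bool)) (u : Fin M.length) (v : Fin (M.headD []).length) : Prop :=
  (M.getD u []).getD v false = true

/-- All rows have the same length. -/
def Rect (M : List (List Bool)) : Prop := ∀ row ∈ M, row.length = (M.headD []).length

end Pool.Agent.Lib.MP_b0bae3_lc
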