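import Pool.Agent.Lib.MP_b0bae3_lc.Defs
import Pool.Agent.Lib.MP_ae8a84_co.NP.Mem

/-!
Ferrers partition number at most two means that the bipartite complement is an interval bigraph.
-/

namespace Pool.Agent.Lib.MP_b0bae3_lc

open Pool.Agent.Lib.MP_ae8a84_co Pool.Agent.Lib.MP_ae8a84_co.NP Pool.Agent.Shared.PolyTime
  Pool.Agent.Lib.MP_8f56c4_lc.H3 N487b59b3 Finset

theorem ferrers_iff {U V : Type} {E : U → V → Prop} :
    Ferrers E ↔ ∀ u u' v v', E u v → E u' v' → E u v' ∨ E u' v := by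
  refine ⟨fun h u u' v v' a b => by_contra fun c => ?_, fun h ⟨u, u', v, v', _, _, a, b, c, d⟩ =>
    (h _ _ _ _ a b).elim c d⟩
  rw [not_or] at c
  exact h ⟨u, u', v, v', fun e => c.1 (e ▸ b), fun e => c.1 (e ▸ a), a, b, c⟩

theorem ranks {U V : Type} [Fintype U] [Fintype V] {E : U → V → Prop}
    (h : ∀ u u' v v', E u v → E u' v' → E u v' ∨ E u' v) :
    ∃ (q : U → ℕ) (a : V → ℕ), ∀ u v, E u v ↔ q u < a v := by
  classical
  refine ⟨fun u => #{v | ¬ E u v}, fun v => (univ.filter fun u => E u v).sup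
    fun u => #{v | ¬ E u v} + 1, fun u v => ⟨fun e => ?_, fun e => by_contra fun c => ?_⟩⟩
  · exact le_sup (f := fun u => #{v | ¬ E u v} + 1) (mem_filter.2 ⟨mem_univ u, e⟩)
  · obtain ⟨w, h1, h2⟩ := Finset.lt_sup_iff.1 e
    have h1 := (mem_filter.1 h1).2
    refine absurd (card_lt_card ((ssubset_iff_of_subset fun z hz => ?_).2
      ⟨v, mem_filter.2 ⟨mem_univ _, c⟩, by simpa using h1⟩)) (not_lt.2 (Nat.lt_succ_iff.1 h2))
    exact mem_filter.2 ⟨mem_univ _, fun d => (h _ _ _ _ d h1).elim c (mem_filter.1 hz).2⟩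

theorem fp_le_two {s t : ℕ} (E : Fin s → Fin t → Prop) :
    fp E ≤ 2 ↔ (Bigraph.mk s t fun u v => ¬ E u v).IntervalOn Set.univ Set.univ := by
  constructor
  · intro h
    obtain ⟨P, h1, h2, h3⟩ := Nat.sInf_mem (s := {k | ∃ P : Fin k → Fin s → Fin t → Prop,
      (∀ i, Ferrers (P i)) ∧ (∀ u v, E u v ↔ ∃ i, P i u v) ∧ ∀ i j u v, P i u v → P j u v → i = j})
      ⟨s, fun i u v => u = i ∧ E u v, fun i => ferrers_iff.2 fun u u' v v' a b =>
        .inl ⟨a.1, a.1 ▸ b.1 ▸ b.2⟩, fun u v => by simp, fun i j u v a b => a.1.symm.trans b.1⟩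
    have key : ∀ n : ℕ, ∀ u u' v v', (∃ i, i.1 = n ∧ P i u v) → (∃ i, i.1 = n ∧ P i u' v') →
        (∃ i, i.1 = n ∧ P i u v') ∨ ∃ i, i.1 = n ∧ P i u' v := by
      rintro n u u' v v' ⟨i, rfl, a⟩ ⟨j, e, b⟩
      obtain rfl := Fin.ext e
      exact (ferrers_iff.1 (h1 j) _ _ _ _ a b).imp (fun c => ⟨j, rfl, c⟩) fun c => ⟨j, rfl, c⟩
    obtain ⟨q, a, e1⟩ := ranks (key 0)
    obtain ⟨b, p, e2⟩ := ranks (E := fun v u => ∃ i, i.1 = 1 ∧ P i u v)
      fun u u' v v' a b => (key 1 _ _ _ _ a b).symm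
    refine intervalOn_of_ranks _ _ _ p q a b fun u _ v _ => ⟨?_, fun c => ?_⟩
    · rw [← not_lt, ← not_lt, ← e1, ← e2, ← not_or]
      refine not_congr ((h2 u v).trans ⟨fun ⟨i, c⟩ => ?_, fun c => c.elim (fun ⟨i, _, c⟩ => ⟨i, c⟩)
        fun ⟨i, _, c⟩ => ⟨i, c⟩⟩)
      have : i.1 < 2 := i.2.trans_le h
      rcases (by omega : i.1 = 0 ∨ i.1 = 1) with d | d
      · exact .inl ⟨i, d, c⟩
      · exact .inr ⟨i, d, c⟩
    · obtain ⟨i, a1, a2⟩ := (e1 u v).2 c.1
      obtain ⟨j, b1, b2⟩ := (e2 v u).2 c.2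
      obtain rfl := h3 i j u v a2 b2
      omega
  · rintro ⟨l, r, l', r', h1, h2, h3⟩
    refine Nat.sInf_le ⟨![fun u v => r u < l' v, fun u v => r' v < l u], ?_, fun u v => ?_, ?_⟩
    · refine Fin.forall_fin_two.2 ⟨ferrers_iff.2 fun u u' v v' a b => ?_,
        ferrers_iff.2 fun u u' v v' a b => ?_⟩ <;>
        simp only [Matrix.cons_val_zero, Matrix.cons_val_one] at * <;> by_contra c <;>
        rw [not_or, not_lt, not_lt] at c <;> linarith [c.1, c.2]
    · have : ¬ E u v ↔ _ := (h3 u trivial v trivial).trans (icc_inter_nonempty (h1 u) (h2 v))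
      rw [← not_iff_not, this]
      simp
    · simp only [Fin.forall_fin_two, Matrix.cons_val_zero, Matrix.cons_val_one]
      exact ⟨⟨fun _ _ _ _ => trivial, fun u v a b => by linarith [h1 u, h2 v]⟩,
        fun u v a b => by linarith [h1 u, h2 v], fun _ _ _ _ => trivial⟩

/-- the complementary matrix -/
def cmp (M : List (List Bool)) : List (List Bool) :=
  (List.range M.length).map fun i => (List.range (M.headD []).length).map fun j => !ent M i j

@[fun_prop] theorem cmp_pt {α : Type} [N487b59b3 α] {M : α → List (List Bool)} (h : PT M) :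
    PT fun a => cmp (M a) := by unfold cmp ent; fun_prop

theorem cmp_s (M : List (List Bool)) : (cmp M).length = M.length := by simp [cmp]

theorem cmp_t (M : List (List Bool)) : ((cmp M).headD []).length = (M.headD []).length := by
  cases M <;> simp [cmp, List.range_succ_eq_map]

theorem ent_cmp {M : List (List Bool)} {i j : ℕ} (hi : i < M.length) (hj : j < (M.headD []).length) :
    ent (cmp M) i j = !ent M i j := by
  rw [ent, cmp, List.getD_eq_getElem (n := i) _ _ (by simpa using hi), List.getElem_map,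
    List.getD_eq_getElem _ _ (by simpa using hj)]
  simp

theorem rect_cmp (M : List (List Bool)) : Rect (cmp M) := by
  intro row h
  obtain ⟨d, hd, rfl⟩ := List.mem_map.1 h
  rw [cmp_t, List.length_map, List.length_range]

theorem fp_iff {M N : List (List Bool)} (h1 : M.length = N.length)
    (h2 : (M.headD []).length = (N.headD []).length)
    (h : ∀ i < M.length, ∀ j < (M.headD []).length, ent M i j = !ent N i j) :
    fp (edge M) ≤ 2 ↔ (ofMatrix N).IntervalOn Set.univ Set.univ := by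
  rw [fp_le_two, intervalOn_iff (M := N) (G := ofMatrix N) (u := Fin.val) (v := Fin.val)
    fun _ _ => Iff.rfl, intervalOn_iff (M := N) (u := Fin.val) (v := Fin.val) fun u v => by
      have := h u u.2 v v.2
      change ¬ ent M u v = true ↔ _
      simp [this]]
  simp only [Set.image_univ, Fin.range_val, ofMatrix, h1, h2]

theorem np_comp {A : List Bool → Bool} (hA : A ∈ N68a2faeb.NP) {g : List Bool → List Bool}
    (hg : PT g) : (fun x => A (g x)) ∈ N68a2faeb.NP := by
  obtain ⟨p, R, hR, h⟩ := hA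
  have hR := PT.ofIsPolyTime hR
  refine np_raw (fun x (w : List Bool) => decide (w.length ≤ p.eval (g x).length) && R (g x, w))
    ((PT.decide_le (by fun_prop) (Shared.CookLevin.pt_eval p (by fun_prop))).and
      (hR.comp' (by fun_prop))) (g := fun x => 3 * p.eval (g x).length)
    ((PB.const 3).mul (Shared.CookLevin.pb_eval p (by fun_prop))) (fun x hx => ?_) fun x w hw => ?_
  · obtain ⟨w, a, b⟩ := (h _).1 hx
    exact ⟨w, by rw [sz_listBool]; omega, by simp [a, b]⟩
  · simp only [Bool.and_eq_true, decide_eq_true_eq] at hw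
    exact (h _).2 ⟨w, hw⟩

theorem mem : ∃ L ∈ N68a2faeb.NP, ∀ M : List (List Bool),
    L (bitEncode M) = true ↔ fp (edge M) ≤ 2 := by
  obtain ⟨L, hL, h⟩ := mem_np
  refine ⟨_, np_comp hL (g := fun y => bitEncode (cmp (Dec.dec y))) (by fun_prop), fun M => ?_⟩
  rw [Dec.dec_enc, h, fp_iff (cmp_s M).symm (cmp_t M).symm fun i hi j hj => by
    rw [ent_cmp hi hj, Bool.not_not]]

theorem hardness {L : List Bool → Bool} (hL : L ∈ N68a2faeb.NP) :
    ∃ f : List Bool → List (List Bool), PT f ∧ ∀ x, Rect (f x) ∧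
      (L x = true ↔ fp (edge (f x)) ≤ 2) := by
  obtain ⟨f, hf, h⟩ := hard hL
  exact ⟨fun x => cmp (f x), by fun_prop, fun x => ⟨rect_cmp _, (h x).2.2.trans
    (fp_iff (cmp_s _) (cmp_t _) fun i hi j hj => ent_cmp (cmp_s _ ▸ hi) (cmp_t _ ▸ hj)).symm⟩⟩

end Pool.Agent.Lib.MP_b0bae3_lc
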